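import Pool.Agent.BEP.Stmts

/-!
# Row ARI of squad BEP: arithmetic
-/

namespace Pool.Agent.BEP.H10

open Set

theorem one_R {l1 m1 a b R : ℝ} {n : ℕ} (hR : 0 < R)
    (h : (n : ℝ) ^ 2 * (l1 / R ^ 2 + m1) = a / R ^ 2 + b) :
    (n : ℝ) ^ 2 * l1 - a = (b - (n : ℝ) ^ 2 * m1) * R ^ 2 := by
  have h2 : R ^ 2 ≠ 0 := by positivity
  have h3 : ((n : ℝ) ^ 2 * (l1 / R ^ 2 + m1)) * R ^ 2 = (a / R ^ 2 + b) * R ^ 2 := by rw [h]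
  have h4 : l1 / R ^ 2 * R ^ 2 = l1 := div_mul_cancel₀ _ h2
  have h5 : a / R ^ 2 * R ^ 2 = a := div_mul_cancel₀ _ h2
  have h6 : ((n : ℝ) ^ 2 * (l1 / R ^ 2 + m1)) * R ^ 2 =
      (n : ℝ) ^ 2 * (l1 / R ^ 2 * R ^ 2) + (n : ℝ) ^ 2 * m1 * R ^ 2 := by ring
  have h7 : (a / R ^ 2 + b) * R ^ 2 = a / R ^ 2 * R ^ 2 + b * R ^ 2 := by ring
  rw [h6, h7, h4, h5] at h3
  linarith

/-- Row ARI. -/
theorem ari : AriStmt := by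
  intro A B l1 m1 hA hB
  refine ⟨⋃ n : ℕ, ⋃ a ∈ A, ⋃ b ∈ B, {R : ℝ | 0 < R ∧ (n : ℝ) ^ 2 * l1 ≠ a ∧
    (n : ℝ) ^ 2 * (l1 / R ^ 2 + m1) = a / R ^ 2 + b}, ?_, ?_⟩
  · refine countable_iUnion fun n => hA.biUnion fun a _ => hB.biUnion fun b _ => ?_
    refine Set.Subsingleton.countable ?_
    intro R hR S hS
    obtain ⟨hR0, hne, hR⟩ := hR
    obtain ⟨hS0, -, hS⟩ := hS
    have h1 := one_R hR0 hR
    have h2 := one_R hS0 hS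
    have h3 : (n : ℝ) ^ 2 * l1 - a ≠ 0 := sub_ne_zero.mpr hne
    have h4 : b - (n : ℝ) ^ 2 * m1 ≠ 0 := by
      intro h
      rw [h, zero_mul] at h1
      exact h3 h1
    have h5 : R ^ 2 = S ^ 2 := mul_left_cancel₀ h4 (h1.symm.trans h2)
    exact (sq_eq_sq₀ hR0.le hS0.le).1 h5
  · intro R hR hC n a ha b hb h
    by_contra hne
    apply hC
    simp only [mem_iUnion]
    exact ⟨n, a, ha, b, hb, hR, hne, h⟩

end Pool.Agent.BEP.H10
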